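import Pool.Agent.helper68.FY.Spec

/-!
# Project fy, row BUA: the shift inequality
-/

set_option autoImplicit false

namespace Pool.Agent.helper68.FY

open Finset

theorem BUA_open {ι κ : Type} (B : Finset ι) (W : Finset κ) (β : ι → ℂ) (hβ : ∀ b, ‖β b‖ ≤ 1)
    (f : ι → κ → ℂ) :
    ∑ w ∈ W, ‖∑ b ∈ B, β b * f b w‖ ^ 2 ≤
      ∑ i ∈ B ×ˢ B, ‖∑ w ∈ W, f i.1 w * (starRingEnd ℂ) (f i.2 w)‖ := by
  have h3 : ((∑ w ∈ W, ‖∑ b ∈ B, β b * f b w‖ ^ 2 : ℝ) : ℂ) =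
      ∑ i ∈ B ×ˢ B, β i.1 * (starRingEnd ℂ) (β i.2) *
        ∑ w ∈ W, f i.1 w * (starRingEnd ℂ) (f i.2 w) := by
    push_cast
    have h4 : ∀ w : κ, ((‖∑ b ∈ B, β b * f b w‖ : ℝ) : ℂ) ^ 2 =
        ∑ i ∈ B ×ˢ B, β i.1 * (starRingEnd ℂ) (β i.2) * (f i.1 w * (starRingEnd ℂ) (f i.2 w)) := by
      intro w
      rw [← Complex.mul_conj', map_sum, Finset.sum_mul_sum, Finset.sum_product]
      refine Finset.sum_congr rfl fun b _ => Finset.sum_congr rfl fun c _ => ?_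
      rw [map_mul]
      ring
    simp_rw [h4]
    rw [Finset.sum_comm]
    refine Finset.sum_congr rfl fun i _ => ?_
    rw [Finset.mul_sum]
  have h5 : ∑ w ∈ W, ‖∑ b ∈ B, β b * f b w‖ ^ 2 =
      ‖((∑ w ∈ W, ‖∑ b ∈ B, β b * f b w‖ ^ 2 : ℝ) : ℂ)‖ := by
    rw [Complex.norm_real, Real.norm_eq_abs, abs_of_nonneg]
    exact Finset.sum_nonneg fun _ _ => by positivity
  rw [h5, h3]
  refine (norm_sum_le _ _).trans (Finset.sum_le_sum fun i _ => ?_)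
  rw [norm_mul, norm_mul, RCLike.norm_conj]
  have h6 : ‖β i.1‖ * ‖β i.2‖ ≤ 1 := mul_le_one₀ (hβ _) (norm_nonneg _) (hβ _)
  exact mul_le_of_le_one_left (norm_nonneg _) h6

section
variable (p : ℕ) [Fact p.Prime]
set_option linter.unusedSectionVars false

/-- the character value at the shifted point -/
noncomputable def BUA_f (χ : MulChar (ZMod p) ℂ) (u v : ℤ × ℤ) (b : ZMod p) (w : ℕ) : ℂ :=
  χ (((v.1 : ZMod p) + (v.2 : ZMod p) * b) + (w : ZMod p) * ((u.1 : ZMod p) + (u.2 : ZMod p) * b))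

/-- the inner sum -/
noncomputable def BUA_T (χ : MulChar (ZMod p) ℂ) (W : ℕ)
    (x : ((ℤ × ℤ) × (ℤ × ℤ)) × (ZMod p × ZMod p)) : ℝ :=
  ‖∑ w ∈ Icc 1 W, BUA_f p χ x.1.1 x.1.2 x.2.1 w * (starRingEnd ℂ) (BUA_f p χ x.1.1 x.1.2 x.2.2 w)‖

theorem BUA_T_le (χ : MulChar (ZMod p) ℂ) (W : ℕ)
    (x : ((ℤ × ℤ) × (ℤ × ℤ)) × (ZMod p × ZMod p)) : BUA_T p χ W x ≤ W := by
  have h : ∀ a : ZMod p, ‖χ a‖ ≤ 1 := fun a => DirichletCharacter.norm_le_one (n := p) χ a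
  unfold BUA_T
  refine (norm_sum_le _ _).trans ?_
  have h1 : ∀ w ∈ Icc 1 W, ‖BUA_f p χ x.1.1 x.1.2 x.2.1 w *
      (starRingEnd ℂ) (BUA_f p χ x.1.1 x.1.2 x.2.2 w)‖ ≤ 1 := by
    intro w _
    rw [norm_mul, RCLike.norm_conj]
    exact mul_le_one₀ (h _) (norm_nonneg _) (h _)
  refine (Finset.sum_le_sum h1).trans ?_
  rw [Finset.sum_const, Nat.card_Icc]
  simp

theorem BUA_shift (χ : MulChar (ZMod p) ℂ) (B : Finset (ZMod p)) (β : ZMod p → ℂ) (Q L W : ℕ)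
    (hLW : L * W ≤ Q) (u : ℤ × ℤ) (hu : u ∈ Icc (1 : ℤ) L ×ˢ Icc (1 : ℤ) L) (w : ℕ)
    (hw : w ∈ Icc 1 W) :
    S2 p χ B β Q ≤ ∑ v ∈ Icc (-(Q : ℤ)) Q ×ˢ Icc (-(Q : ℤ)) Q,
      ‖∑ b ∈ B, β b * BUA_f p χ u v b w‖ ^ 2 := by
  unfold S2
  set φ : ℕ × ℕ → ℤ × ℤ := fun v => ((v.1 : ℤ) - w * u.1, (v.2 : ℤ) - w * u.2) with hφ
  have hinj : Set.InjOn φ ↑(Icc 1 Q ×ˢ Icc 1 Q) := by
    intro a _ b _ h
    simp only [hφ, Prod.mk.injEq] at h
    obtain ⟨h1, h2⟩ := h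
    refine Prod.ext ?_ ?_
    · omega
    · omega
  have h2 : ∑ v ∈ Icc 1 Q ×ˢ Icc 1 Q, ‖∑ b ∈ B, β b * χ ((v.1 : ZMod p) + (v.2 : ZMod p) * b)‖ ^ 2 =
      ∑ v ∈ (Icc 1 Q ×ˢ Icc 1 Q).image φ, ‖∑ b ∈ B, β b * BUA_f p χ u v b w‖ ^ 2 := by
    rw [Finset.sum_image hinj]
    refine Finset.sum_congr rfl fun v _ => ?_
    have e : ∀ b : ZMod p, (v.1 : ZMod p) + (v.2 : ZMod p) * b =
        ((((φ v).1 : ℤ) : ZMod p) + (((φ v).2 : ℤ) : ZMod p) * b) +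
          (w : ZMod p) * ((u.1 : ZMod p) + (u.2 : ZMod p) * b) := by
      intro b
      simp only [hφ]
      push_cast
      ring
    simp only [BUA_f, ← e]
  rw [h2]
  apply Finset.sum_le_sum_of_subset_of_nonneg
  · intro x hx
    rw [mem_image] at hx
    obtain ⟨a, ha, rfl⟩ := hx
    rw [mem_product, mem_Icc, mem_Icc] at ha
    rw [mem_product, mem_Icc, mem_Icc] at hu
    rw [mem_Icc] at hw
    have hw1 : (1 : ℤ) ≤ w := by exact_mod_cast hw.1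
    have hw2 : (w : ℤ) ≤ W := by exact_mod_cast hw.2
    have hQ : (L : ℤ) * W ≤ Q := by exact_mod_cast hLW
    have key : ∀ y : ℤ, 1 ≤ y → y ≤ L → 0 ≤ (w : ℤ) * y ∧ (w : ℤ) * y ≤ Q := by
      intro y h1 h2
      refine ⟨by positivity, ?_⟩
      calc (w : ℤ) * y ≤ W * L := mul_le_mul hw2 h2 (by omega) (by positivity)
        _ ≤ Q := by linarith
    have k1 := key u.1 hu.1.1 hu.1.2
    have k2 := key u.2 hu.2.1 hu.2.2
    simp only [hφ, mem_product, mem_Icc]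
    refine ⟨⟨?_, ?_⟩, ⟨?_, ?_⟩⟩ <;> omega
  · intro _ _ _; positivity

/-- the matrix attached to a term -/
def BUA_g (x : (ℤ × ℤ) × (ℤ × ℤ)) : V4 := ![x.2.2, x.2.1, x.1.2, x.1.1]

theorem BUA_good (χ : MulChar (ZMod p) ℂ) (W : ℕ)
    (x : ((ℤ × ℤ) × (ℤ × ℤ)) × (ZMod p × ZMod p))
    (h1 : (x.1.1.1 : ZMod p) + (x.1.1.2 : ZMod p) * x.2.1 ≠ 0)
    (h2 : (x.1.1.1 : ZMod p) + (x.1.1.2 : ZMod p) * x.2.2 ≠ 0) :
    BUA_T p χ W x = RR p χ W (zz p (BUA_g x.1) x.2.1, zz p (BUA_g x.1) x.2.2) := by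
  have hn : ∀ a : ZMod p, a ≠ 0 → ‖χ a‖ = 1 := by
    intro a ha
    exact DirichletCharacter.unit_norm_eq_one (n := p) χ (Units.mk0 a ha)
  have e : ∀ b : ZMod p, (x.1.1.1 : ZMod p) + (x.1.1.2 : ZMod p) * b ≠ 0 → ∀ w : ℕ,
      BUA_f p χ x.1.1 x.1.2 b w = χ ((x.1.1.1 : ZMod p) + (x.1.1.2 : ZMod p) * b) *
        χ ((w : ZMod p) + zz p (BUA_g x.1) b) := by
    intro b hb w
    unfold BUA_f zz BUA_g
    rw [← map_mul]
    refine congrArg χ ?_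
    have hb' : ((![x.1.2.2, x.1.2.1, x.1.1.2, x.1.1.1] : V4) 2 : ZMod p) * b +
      ((![x.1.2.2, x.1.2.1, x.1.1.2, x.1.1.1] : V4) 3 : ZMod p) ≠ 0 := by
      change (x.1.1.2 : ZMod p) * b + (x.1.1.1 : ZMod p) ≠ 0
      rw [add_comm]; exact hb
    have hd : ((x.1.1.1 : ZMod p) + (x.1.1.2 : ZMod p) * b) *
        ((((x.1.2.2 : ZMod p) * b + (x.1.2.1 : ZMod p))) /
          ((x.1.1.2 : ZMod p) * b + (x.1.1.1 : ZMod p))) =
        (x.1.2.2 : ZMod p) * b + (x.1.2.1 : ZMod p) := by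
      have hb2 : (x.1.1.2 : ZMod p) * b + (x.1.1.1 : ZMod p) ≠ 0 := by
        rw [add_comm]; exact hb
      rw [add_comm (x.1.1.1 : ZMod p)]
      exact mul_div_cancel₀ _ hb2
    change _ = ((x.1.1.1 : ZMod p) + (x.1.1.2 : ZMod p) * b) * ((w : ZMod p) +
      (((x.1.2.2 : ZMod p) * b + (x.1.2.1 : ZMod p))) /
          ((x.1.1.2 : ZMod p) * b + (x.1.1.1 : ZMod p)))
    linear_combination -hd
  unfold BUA_T RR
  have h3 : ∑ w ∈ Icc 1 W, BUA_f p χ x.1.1 x.1.2 x.2.1 w *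
      (starRingEnd ℂ) (BUA_f p χ x.1.1 x.1.2 x.2.2 w) =
      (χ ((x.1.1.1 : ZMod p) + (x.1.1.2 : ZMod p) * x.2.1) *
        (starRingEnd ℂ) (χ ((x.1.1.1 : ZMod p) + (x.1.1.2 : ZMod p) * x.2.2))) *
      ∑ w ∈ Icc 1 W, χ ((w : ZMod p) + zz p (BUA_g x.1) x.2.1) *
        (starRingEnd ℂ) (χ ((w : ZMod p) + zz p (BUA_g x.1) x.2.2)) := by
    rw [Finset.mul_sum]
    refine Finset.sum_congr rfl fun w _ => ?_
    rw [e _ h1, e _ h2, map_mul]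
    ring
  rw [h3, norm_mul, norm_mul, RCLike.norm_conj, hn _ h1, hn _ h2]
  simp

/-- the box of the shifts -/
noncomputable def BUA_U (L : ℕ) : Finset (ℤ × ℤ) := Icc (1 : ℤ) L ×ˢ Icc (1 : ℤ) L

/-- the box of the points -/
noncomputable def BUA_V (Q : ℕ) : Finset (ℤ × ℤ) := Icc (-(Q : ℤ)) Q ×ˢ Icc (-(Q : ℤ)) Q

theorem BUA_cU (L : ℕ) : (BUA_U L).card = L ^ 2 := by
  unfold BUA_U
  rw [card_product, Int.card_Icc]
  simp [sq]

theorem BUA_cI (L : ℕ) : (Icc (1 : ℤ) L).card = L := by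
  rw [Int.card_Icc]
  simp

theorem BUA_cV (Q : ℕ) : (BUA_V Q).card = (2 * Q + 1) ^ 2 := by
  unfold BUA_V
  rw [card_product, Int.card_Icc]
  have : ((Q : ℤ) + 1 - -(Q : ℤ)).toNat = 2 * Q + 1 := by omega
  rw [this, sq]

/-- the index set -/
noncomputable def BUA_X (L Q : ℕ) (B : Finset (ZMod p)) : Finset (((ℤ × ℤ) × (ℤ × ℤ)) × (ZMod p × ZMod p)) :=
  (BUA_U L ×ˢ BUA_V Q) ×ˢ (B ×ˢ B)

theorem BUA_mem (L Q : ℕ) (B : Finset (ZMod p)) (x : ((ℤ × ℤ) × (ℤ × ℤ)) × (ZMod p × ZMod p)) :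
    x ∈ BUA_X p L Q B ↔ ((((1 : ℤ) ≤ x.1.1.1 ∧ x.1.1.1 ≤ L) ∧ ((1 : ℤ) ≤ x.1.1.2 ∧ x.1.1.2 ≤ L)) ∧
      ((-(Q : ℤ) ≤ x.1.2.1 ∧ x.1.2.1 ≤ Q) ∧ (-(Q : ℤ) ≤ x.1.2.2 ∧ x.1.2.2 ≤ Q))) ∧
      (x.2.1 ∈ B ∧ x.2.2 ∈ B) := by
  unfold BUA_X BUA_U BUA_V
  simp only [mem_product, mem_Icc]

theorem BUA_c1 (L Q : ℕ) (B : Finset (ZMod p)) :
    ((BUA_X p L Q B).filter fun x => x.2.1 = x.2.2).card ≤ L ^ 2 * (2 * Q + 1) ^ 2 * B.card := by
  have h : ((BUA_U L ×ˢ BUA_V Q) ×ˢ B).card = L ^ 2 * (2 * Q + 1) ^ 2 * B.card := by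
    rw [card_product, card_product, BUA_cU, BUA_cV]
  rw [← h]
  refine card_le_card_of_injOn (fun x => (x.1, x.2.1)) ?_ ?_
  · intro x hx
    rw [mem_coe, mem_filter] at hx
    obtain ⟨hx, -⟩ := hx
    unfold BUA_X at hx
    rw [mem_product, mem_product, mem_product] at hx
    rw [mem_coe, mem_product, mem_product]
    exact ⟨hx.1, hx.2.1⟩
  · intro x hx y hy hxy
    rw [mem_coe, mem_filter] at hx hy
    simp only [Prod.mk.injEq] at hxy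
    refine Prod.ext hxy.1 (Prod.ext hxy.2 ?_)
    rw [← hx.2, ← hy.2, hxy.2]

theorem BUA_cast_inj (L : ℕ) (hL : L < p) (a b : ℤ) (ha : 1 ≤ a) (ha' : a ≤ L) (hb : 1 ≤ b)
    (hb' : b ≤ L) (h : (a : ZMod p) = (b : ZMod p)) : a = b := by
  rw [ZMod.intCast_eq_intCast_iff_dvd_sub] at h
  obtain ⟨c, hc⟩ := h
  have hp : (L : ℤ) < p := by exact_mod_cast hL
  rcases lt_trichotomy c 0 with h0 | h0 | h0
  · nlinarith
  · rw [h0] at hc; omega
  · nlinarith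

theorem BUA_c2 (L Q : ℕ) (hL : L < p) (B : Finset (ZMod p)) :
    ((BUA_X p L Q B).filter fun x => (x.1.1.1 : ZMod p) + (x.1.1.2 : ZMod p) * x.2.1 = 0).card ≤
      L * (2 * Q + 1) ^ 2 * B.card ^ 2 := by
  have h : ((Icc (1 : ℤ) L ×ˢ BUA_V Q) ×ˢ (B ×ˢ B)).card = L * (2 * Q + 1) ^ 2 * B.card ^ 2 := by
    rw [card_product, card_product, card_product, BUA_cI, BUA_cV, sq B.card]
  rw [← h]
  refine card_le_card_of_injOn (fun x => ((x.1.1.2, x.1.2), x.2)) ?_ ?_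
  · intro x hx
    rw [mem_coe, mem_filter] at hx
    obtain ⟨hx, -⟩ := hx
    unfold BUA_X BUA_U at hx
    rw [mem_product, mem_product, mem_product] at hx
    rw [mem_coe, mem_product, mem_product]
    exact ⟨⟨hx.1.1.2, hx.1.2⟩, hx.2⟩
  · intro x hx y hy hxy
    rw [mem_coe, mem_filter, BUA_mem] at hx hy
    simp only [Prod.mk.injEq] at hxy
    obtain ⟨⟨h1, h2⟩, h3⟩ := hxy
    refine Prod.ext (Prod.ext (Prod.ext ?_ h1) h2) h3
    refine BUA_cast_inj p L hL _ _ hx.1.1.1.1.1 hx.1.1.1.1.2 hy.1.1.1.1.1 hy.1.1.1.1.2 ?_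
    have e1 := hx.2
    have e2 := hy.2
    rw [h1, h3] at e1
    linear_combination e1 - e2

theorem BUA_c3 (L Q : ℕ) (hL : L < p) (B : Finset (ZMod p)) :
    ((BUA_X p L Q B).filter fun x => (x.1.1.1 : ZMod p) + (x.1.1.2 : ZMod p) * x.2.2 = 0).card ≤
      L * (2 * Q + 1) ^ 2 * B.card ^ 2 := by
  have h : ((Icc (1 : ℤ) L ×ˢ BUA_V Q) ×ˢ (B ×ˢ B)).card = L * (2 * Q + 1) ^ 2 * B.card ^ 2 := by
    rw [card_product, card_product, card_product, BUA_cI, BUA_cV, sq B.card]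
  rw [← h]
  refine card_le_card_of_injOn (fun x => ((x.1.1.2, x.1.2), x.2)) ?_ ?_
  · intro x hx
    rw [mem_coe, mem_filter] at hx
    obtain ⟨hx, -⟩ := hx
    unfold BUA_X BUA_U at hx
    rw [mem_product, mem_product, mem_product] at hx
    rw [mem_coe, mem_product, mem_product]
    exact ⟨⟨hx.1.1.2, hx.1.2⟩, hx.2⟩
  · intro x hx y hy hxy
    rw [mem_coe, mem_filter, BUA_mem] at hx hy
    simp only [Prod.mk.injEq] at hxy
    obtain ⟨⟨h1, h2⟩, h3⟩ := hxy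
    refine Prod.ext (Prod.ext (Prod.ext ?_ h1) h2) h3
    refine BUA_cast_inj p L hL _ _ hx.1.1.1.1.1 hx.1.1.1.1.2 hy.1.1.1.1.1 hy.1.1.1.1.2 ?_
    have e1 := hx.2
    have e2 := hy.2
    rw [h1, h3] at e1
    linear_combination e1 - e2

theorem BUA_c4 (L Q : ℕ) (B : Finset (ZMod p)) :
    ((BUA_X p L Q B).filter fun x => x.1.2.1 * x.1.1.2 = x.1.2.2 * x.1.1.1).card ≤
      L ^ 2 * B.card ^ 2 + L * (2 * Q + 1) ^ 2 * B.card ^ 2 := by
  have h : ((Icc (1 : ℤ) L ×ˢ BUA_V Q) ×ˢ (B ×ˢ B)).card = L * (2 * Q + 1) ^ 2 * B.card ^ 2 := by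
    rw [card_product, card_product, card_product, BUA_cI, BUA_cV, sq B.card]
  have h' : (BUA_U L ×ˢ (B ×ˢ B)).card = L ^ 2 * B.card ^ 2 := by
    rw [card_product, card_product, BUA_cU, sq B.card]
  rw [← card_filter_add_card_filter_not (s := (BUA_X p L Q B).filter
    fun x => x.1.2.1 * x.1.1.2 = x.1.2.2 * x.1.1.1) (fun x => x.1.2 = 0)]
  refine add_le_add ?_ ?_
  · rw [← h']
    refine card_le_card_of_injOn (fun x => (x.1.1, x.2)) ?_ ?_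
    · intro x hx
      rw [mem_coe, mem_filter, mem_filter] at hx
      obtain ⟨⟨hx, -⟩, -⟩ := hx
      unfold BUA_X at hx
      rw [mem_product, mem_product] at hx
      rw [mem_coe, mem_product]
      exact ⟨hx.1.1, hx.2⟩
    · intro x hx y hy hxy
      rw [mem_coe, mem_filter, mem_filter] at hx hy
      simp only [Prod.mk.injEq] at hxy
      refine Prod.ext (Prod.ext hxy.1 ?_) hxy.2
      rw [hx.2, hy.2]
  · rw [← h]
    refine card_le_card_of_injOn (fun x => ((x.1.1.1, x.1.2), x.2)) ?_ ?_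
    · intro x hx
      rw [mem_coe, mem_filter, mem_filter] at hx
      obtain ⟨⟨hx, -⟩, -⟩ := hx
      unfold BUA_X BUA_U at hx
      rw [mem_product, mem_product, mem_product] at hx
      rw [mem_coe, mem_product, mem_product]
      exact ⟨⟨hx.1.1.1, hx.1.2⟩, hx.2⟩
    · intro x hx y hy hxy
      rw [mem_coe, mem_filter, mem_filter, BUA_mem] at hx hy
      simp only [Prod.mk.injEq] at hxy
      obtain ⟨⟨h1, h2⟩, h3⟩ := hxy
      refine Prod.ext (Prod.ext (Prod.ext h1 ?_) h2) h3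
      have e1 := hx.1.2
      have e2 := hy.1.2
      have e3 := hx.2
      rw [h1, h2] at e1
      rw [h2] at e3
      by_cases hv : y.1.2.1 = 0
      · exfalso
        apply e3
        rw [hv, zero_mul] at e1
        have h4 : y.1.1.1 ≠ 0 := by
          have := hy.1.1.1.1.1.1
          omega
        have h5 : y.1.2.2 = 0 := by
          rcases mul_eq_zero.mp e1.symm with h | h
          · exact h
          · exact absurd h h4
        exact Prod.ext hv h5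
      · exact mul_left_cancel₀ hv (e1.trans e2.symm)

end

theorem BUA : BUA_stmt := by
  intro p _ χ _ B β hβ Q L W hL hW hLW hQ
  classical
  have hLQ : L ≤ Q := le_trans (Nat.le_mul_of_pos_right L hW) hLW
  have hLp : L < p := lt_of_le_of_lt hLQ hQ
  have hQ1 : 1 ≤ Q := hL.trans hLQ
  -- step 1
  have s1 : (L : ℝ) ^ 2 * W * S2 p χ B β Q ≤ ∑ x ∈ BUA_X p L Q B, BUA_T p χ W x := by
    have h1 : (L : ℝ) ^ 2 * W * S2 p χ B β Q = ∑ u ∈ BUA_U L, ∑ w ∈ Icc 1 W, S2 p χ B β Q := by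
      rw [sum_const, sum_const, BUA_cU, Nat.card_Icc]
      simp only [nsmul_eq_mul]
      push_cast
      ring
    rw [h1]
    unfold BUA_X
    rw [sum_product, sum_product]
    refine sum_le_sum fun u hu => ?_
    have h2 : ∑ w ∈ Icc 1 W, S2 p χ B β Q ≤ ∑ w ∈ Icc 1 W, ∑ v ∈ BUA_V Q,
        ‖∑ b ∈ B, β b * BUA_f p χ u v b w‖ ^ 2 :=
      sum_le_sum fun w hw => BUA_shift p χ B β Q L W hLW u hu w hw
    refine h2.trans ?_
    rw [sum_comm]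
    exact sum_le_sum fun v _ => BUA_open B (Icc 1 W) β hβ (fun b w => BUA_f p χ u v b w)
  refine s1.trans ?_
  -- the good and the bad terms
  set good : ((ℤ × ℤ) × (ℤ × ℤ)) × (ZMod p × ZMod p) → Prop := fun x =>
    ¬ x.2.1 = x.2.2 ∧ ¬ (x.1.1.1 : ZMod p) + (x.1.1.2 : ZMod p) * x.2.1 = 0 ∧
    ¬ (x.1.1.1 : ZMod p) + (x.1.1.2 : ZMod p) * x.2.2 = 0 ∧
    ¬ x.1.2.1 * x.1.1.2 = x.1.2.2 * x.1.1.1 with hgood
  rw [← sum_filter_add_sum_filter_not (BUA_X p L Q B) good, add_comm]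
  refine add_le_add ?_ ?_
  · -- bad terms
    have h1 : ∑ x ∈ (BUA_X p L Q B).filter (fun x => ¬ good x), BUA_T p χ W x ≤
        ((BUA_X p L Q B).filter (fun x => ¬ good x)).card * (W : ℝ) := by
      rw [← nsmul_eq_mul, ← sum_const]
      exact sum_le_sum fun x _ => BUA_T_le p χ W x
    refine h1.trans ?_
    have h2 : (BUA_X p L Q B).filter (fun x => ¬ good x) ⊆
        (((BUA_X p L Q B).filter fun x => x.2.1 = x.2.2) ∪
        ((BUA_X p L Q B).filter fun x => (x.1.1.1 : ZMod p) + (x.1.1.2 : ZMod p) * x.2.1 = 0)) ∪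
        (((BUA_X p L Q B).filter fun x => (x.1.1.1 : ZMod p) + (x.1.1.2 : ZMod p) * x.2.2 = 0) ∪
        ((BUA_X p L Q B).filter fun x => x.1.2.1 * x.1.1.2 = x.1.2.2 * x.1.1.1)) := by
      intro x hx
      rw [mem_filter] at hx
      obtain ⟨hx1, hx2⟩ := hx
      simp only [mem_union, mem_filter, hx1, true_and]
      by_contra hc
      push Not at hc
      exact hx2 ⟨hc.1.1, hc.1.2, hc.2.1, hc.2.2⟩
    have h3 : ((BUA_X p L Q B).filter (fun x => ¬ good x)).card ≤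
        (L ^ 2 * (2 * Q + 1) ^ 2 * B.card + L * (2 * Q + 1) ^ 2 * B.card ^ 2) +
        (L * (2 * Q + 1) ^ 2 * B.card ^ 2 +
          (L ^ 2 * B.card ^ 2 + L * (2 * Q + 1) ^ 2 * B.card ^ 2)) := by
      refine (card_le_card h2).trans ((card_union_le _ _).trans (add_le_add
        ((card_union_le _ _).trans (add_le_add (BUA_c1 p L Q B) (BUA_c2 p L Q hLp B)))
        ((card_union_le _ _).trans (add_le_add (BUA_c3 p L Q hLp B) (BUA_c4 p L Q B)))))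
    have h4 : (((BUA_X p L Q B).filter (fun x => ¬ good x)).card : ℝ) ≤
        (9 * (Q : ℝ) ^ 2) * ((L : ℝ) ^ 2 * B.card + 4 * L * (B.card : ℝ) ^ 2) := by
      have h5 : (((BUA_X p L Q B).filter (fun x => ¬ good x)).card : ℝ) ≤
        ((L : ℝ) ^ 2 * (2 * Q + 1) ^ 2 * B.card + L * (2 * Q + 1) ^ 2 * (B.card : ℝ) ^ 2) +
        (L * (2 * Q + 1) ^ 2 * (B.card : ℝ) ^ 2 +
          ((L : ℝ) ^ 2 * (B.card : ℝ) ^ 2 + L * (2 * Q + 1) ^ 2 * (B.card : ℝ) ^ 2)) := by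
        exact_mod_cast h3
      refine h5.trans ?_
      have hQr : (1 : ℝ) ≤ Q := by exact_mod_cast hQ1
      have hLr : (1 : ℝ) ≤ L := by exact_mod_cast hL
      have hLQr : (L : ℝ) ≤ Q := by exact_mod_cast hLQ
      have hM : (0 : ℝ) ≤ B.card := by positivity
      have a1 : (2 * (Q : ℝ) + 1) ^ 2 ≤ 9 * (Q : ℝ) ^ 2 := by nlinarith
      have a2 : (L : ℝ) ≤ 9 * (Q : ℝ) ^ 2 := by nlinarith
      have a3 : 0 ≤ (9 * (Q : ℝ) ^ 2 - (2 * (Q : ℝ) + 1) ^ 2) *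
          ((L : ℝ) ^ 2 * B.card + 3 * L * (B.card : ℝ) ^ 2) :=
        mul_nonneg (by linarith) (by positivity)
      have a4 : 0 ≤ (9 * (Q : ℝ) ^ 2 - L) * (L * (B.card : ℝ) ^ 2) :=
        mul_nonneg (by linarith) (by positivity)
      nlinarith
    calc (((BUA_X p L Q B).filter (fun x => ¬ good x)).card : ℝ) * (W : ℝ) ≤
        ((9 * (Q : ℝ) ^ 2) * ((L : ℝ) ^ 2 * B.card + 4 * L * (B.card : ℝ) ^ 2)) * W :=
          mul_le_mul_of_nonneg_right h4 (by positivity)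
      _ = W * (9 * (Q : ℝ) ^ 2) * ((L : ℝ) ^ 2 * B.card + 4 * L * (B.card : ℝ) ^ 2) := by ring
  · -- good terms
    unfold XX
    set ψ : ((ℤ × ℤ) × (ℤ × ℤ)) × (ZMod p × ZMod p) → V4 × (ZMod p × ZMod p) :=
      fun x => (BUA_g x.1, x.2) with hψ
    have hinj : Set.InjOn ψ ↑((BUA_X p L Q B).filter good) := by
      intro x _ y _ h
      simp only [hψ, Prod.mk.injEq] at h
      obtain ⟨h1, h2⟩ := h
      refine Prod.ext (Prod.ext (Prod.ext ?_ ?_) (Prod.ext ?_ ?_)) h2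
      · exact congrFun h1 3
      · exact congrFun h1 2
      · exact congrFun h1 1
      · exact congrFun h1 0
    have h1 : ∑ x ∈ (BUA_X p L Q B).filter good, BUA_T p χ W x =
        ∑ i ∈ ((BUA_X p L Q B).filter good).image ψ,
          RR p χ W (zz p i.1 i.2.1, zz p i.1 i.2.2) := by
      rw [sum_image hinj]
      refine sum_congr rfl fun x hx => ?_
      rw [mem_filter] at hx
      exact BUA_good p χ W x hx.2.2.1 hx.2.2.2.1
    rw [h1]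
    apply sum_le_sum_of_subset_of_nonneg
    · intro i hi
      rw [mem_image] at hi
      obtain ⟨x, hx, rfl⟩ := hi
      rw [mem_filter, BUA_mem] at hx
      obtain ⟨⟨⟨⟨⟨u1, u2⟩, ⟨u3, u4⟩⟩, ⟨⟨v1, v2⟩, ⟨v3, v4⟩⟩⟩, ⟨b1, b2⟩⟩, g1, g2, g3, g4⟩ := hx
      have hLQz : (L : ℤ) ≤ Q := by exact_mod_cast hLQ
      unfold ix NB box
      rw [mem_filter, mem_product, mem_filter, Fintype.mem_piFinset, mem_offDiag]
      refine ⟨⟨⟨?_, ?_, ?_, ?_⟩, b1, b2, g1⟩, ?_, ?_⟩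
      · intro j
        rw [mem_Icc]
        fin_cases j
        · exact ⟨v3, v4⟩
        · exact ⟨v1, v2⟩
        · change -(Q : ℤ) ≤ x.1.1.2 ∧ x.1.1.2 ≤ Q
          omega
        · change -(Q : ℤ) ≤ x.1.1.1 ∧ x.1.1.1 ≤ Q
          omega
      · change x.1.2.2 * x.1.1.1 - x.1.2.1 * x.1.1.2 ≠ 0
        intro h
        exact g4 (by linarith)
      · change |x.1.1.2| ≤ (L : ℤ)
        rw [abs_le]; omega
      · change |x.1.1.1| ≤ (L : ℤ)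
        rw [abs_le]; omega
      · change (x.1.1.2 : ZMod p) * x.2.1 + (x.1.1.1 : ZMod p) ≠ 0
        rw [add_comm]; exact g2
      · change (x.1.1.2 : ZMod p) * x.2.2 + (x.1.1.1 : ZMod p) ≠ 0
        rw [add_comm]; exact g3
    · intro i _ _
      unfold RR
      exact norm_nonneg _

end Pool.Agent.helper68.FY
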